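import Pool.Agent.Y743.SD.Stm
import Pool.Agent.Helper256.KM.Mertens

/-! Task SD-TL for helper743: the tail of the sum over the primes, from Mertens' estimate for the
sum of `log p / p` and the integral form of `p ^ (-δ)`. -/

set_option autoImplicit false

open MeasureTheory Filter

namespace Pool.Agent.Y459.TL

open Finset

/-- finite sums of `log p / p ^ (1 + δ)` -/
theorem fin_bound : ∃ C : ℝ, 0 < C ∧ ∀ (F : Finset Nat.Primes) (δ : ℝ), 0 < δ →
    ∑ p ∈ F, Real.log p / p * (p : ℝ) ^ (-δ) ≤ 4 / δ + C := by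
  obtain ⟨C, hC⟩ := Pool.Agent.Helper256.KM.mertens_log
  refine ⟨|C| + 1, by positivity, fun F δ hδ => ?_⟩
  have hP : ∀ p : Nat.Primes, (1 : ℝ) < (p : ℝ) := fun p => by exact_mod_cast p.2.one_lt
  have hP0 : ∀ p : Nat.Primes, (0 : ℝ) < (p : ℝ) := fun p => by linarith [hP p]
  have ha : -δ - 1 < -1 := by linarith
  -- integral representation
  have hrep : ∀ p : Nat.Primes, (p : ℝ) ^ (-δ) = δ * ∫ x in Set.Ioi (p : ℝ), x ^ (-δ - 1) := by
    intro p
    rw [integral_Ioi_rpow_of_lt ha (hP0 p)]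
    have : -δ - 1 + 1 = -δ := by ring
    rw [this]
    field_simp
  have hint : ∀ c : ℝ, 0 < c → ∀ b : ℝ, 0 < b →
      IntegrableOn (fun x : ℝ => x ^ (-b - 1)) (Set.Ioi c) := fun c hc b hb =>
    integrableOn_Ioi_rpow_of_lt (by linarith) hc
  have hrep2 : ∀ p : Nat.Primes, Real.log p / p * (p : ℝ) ^ (-δ) =
      ∫ x in Set.Ioi (1 : ℝ), δ * ((if (p : ℝ) < x then Real.log p / p else 0) * x ^ (-δ - 1)) := by
    intro p
    rw [hrep p, integral_const_mul, ← mul_assoc, mul_comm (Real.log p / p) δ, mul_assoc]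
    congr 1
    rw [← integral_const_mul]
    have h1 : ∀ x : ℝ, (if (p : ℝ) < x then Real.log p / p else 0) * x ^ (-δ - 1) =
        (Set.Ioi (p : ℝ)).indicator (fun x => Real.log p / p * x ^ (-δ - 1)) x := by
      intro x
      by_cases h : (p : ℝ) < x
      · rw [if_pos h, Set.indicator_of_mem (show x ∈ Set.Ioi (p : ℝ) from h)]
      · rw [if_neg h, Set.indicator_of_notMem (show x ∉ Set.Ioi (p : ℝ) from h), zero_mul]
    simp only [h1]
    rw [setIntegral_indicator measurableSet_Ioi]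
    congr 2
    rw [Set.Ioi_inter_Ioi, sup_eq_right.2 (hP p).le]
  have hi2 : ∀ p : Nat.Primes, IntegrableOn (fun x : ℝ =>
      δ * ((if (p : ℝ) < x then Real.log p / p else 0) * x ^ (-δ - 1))) (Set.Ioi 1) := by
    intro p
    apply Integrable.const_mul
    refine ((hint 1 one_pos δ hδ).const_mul (Real.log p / p)).mono' ?_ ?_
    · apply Measurable.aestronglyMeasurable
      apply Measurable.mul
      · exact Measurable.ite measurableSet_Ioi measurable_const measurable_const
      · fun_prop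
    · rw [ae_restrict_iff' measurableSet_Ioi]
      refine Eventually.of_forall fun x hx => ?_
      have hx0 : (0 : ℝ) < x := lt_trans one_pos hx
      have h3 : 0 ≤ Real.log p / p := div_nonneg (Real.log_nonneg (hP p).le) (hP0 p).le
      have h4 : 0 ≤ x ^ (-δ - 1) := Real.rpow_nonneg hx0.le _
      rw [norm_mul, Real.norm_of_nonneg h4]
      refine mul_le_mul_of_nonneg_right ?_ h4
      split_ifs
      · rw [Real.norm_of_nonneg h3]
      · simpa using h3
  rw [sum_congr rfl fun p _ => hrep2 p, ← integral_finsetSum _ fun p _ => hi2 p]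
  have hb : ∀ x ∈ Set.Ioi (1 : ℝ), ∑ p ∈ F, δ * ((if (p : ℝ) < x then Real.log p / p else 0) *
      x ^ (-δ - 1)) ≤ 2 * x ^ (-(δ / 2) - 1) + (|C| + 1) * (δ * x ^ (-δ - 1)) := by
    intro x hx
    have hx1 : (1 : ℝ) < x := hx
    have hx0 : (0 : ℝ) < x := lt_trans one_pos hx
    have h4 : 0 ≤ x ^ (-δ - 1) := Real.rpow_nonneg hx0.le _
    have h5 : ∑ p ∈ F, (if (p : ℝ) < x then Real.log p / p else 0) ≤ Real.log x + |C| := by
      have hN : 1 ≤ ⌊x⌋₊ := Nat.one_le_floor_iff x |>.2 hx1.le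
      have h6 := (abs_le.1 (hC ⌊x⌋₊ hN)).2
      have h7 : Real.log (⌊x⌋₊ : ℝ) ≤ Real.log x :=
        Real.log_le_log (by exact_mod_cast hN) (Nat.floor_le hx0.le)
      have h8 : ∑ p ∈ F, (if (p : ℝ) < x then Real.log p / p else 0) ≤
          ∑ p ∈ (Finset.Icc 1 ⌊x⌋₊).filter Nat.Prime, Real.log p / p := by
        rw [← sum_filter]
        have : ∑ p ∈ F.filter (fun p : Nat.Primes => (p : ℝ) < x), Real.log (p : ℝ) / (p : ℝ) =
            ∑ p ∈ (F.filter (fun p : Nat.Primes => (p : ℝ) < x)).map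
              ⟨fun p : Nat.Primes => (p : ℕ), Subtype.val_injective⟩, Real.log (p : ℝ) / (p : ℝ) := by
          rw [sum_map]; rfl
        rw [this]
        refine sum_le_sum_of_subset_of_nonneg ?_ ?_
        · intro n hn
          rw [Finset.mem_map] at hn
          obtain ⟨p, hp, rfl⟩ := hn
          rw [mem_filter] at hp ⊢
          refine ⟨mem_Icc.2 ⟨p.2.one_lt.le, Nat.le_floor hp.2.le⟩, p.2⟩
        · intro n hn _
          rw [mem_filter, mem_Icc] at hn
          have : (1 : ℝ) ≤ n := by exact_mod_cast hn.1.1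
          exact div_nonneg (Real.log_nonneg this) (by positivity)
      linarith [le_abs_self C]
    have h9 : Real.log x ≤ x ^ (δ / 2) / (δ / 2) := Real.log_le_rpow_div hx0.le (by positivity)
    have h10 : x ^ (δ / 2) * x ^ (-δ - 1) = x ^ (-(δ / 2) - 1) := by
      rw [← Real.rpow_add hx0]; congr 1; ring
    rw [← mul_sum, ← sum_mul]
    calc δ * ((∑ p ∈ F, (if (p : ℝ) < x then Real.log p / p else 0)) * x ^ (-δ - 1))
        ≤ δ * ((x ^ (δ / 2) / (δ / 2) + (|C| + 1)) * x ^ (-δ - 1)) := by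
          refine mul_le_mul_of_nonneg_left (mul_le_mul_of_nonneg_right ?_ h4) hδ.le
          linarith
      _ = 2 * (x ^ (δ / 2) * x ^ (-δ - 1)) + (|C| + 1) * (δ * x ^ (-δ - 1)) := by
          field_simp
      _ = _ := by rw [h10]
  have hgi : IntegrableOn (fun x : ℝ => 2 * x ^ (-(δ / 2) - 1) + (|C| + 1) * (δ * x ^ (-δ - 1)))
      (Set.Ioi 1) :=
    ((hint 1 one_pos (δ / 2) (by positivity)).const_mul 2).add
      (((hint 1 one_pos δ hδ).const_mul δ).const_mul _)
  refine (setIntegral_mono_on (integrable_finsetSum _ fun p _ => hi2 p) hgi measurableSet_Ioi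
    hb).trans (le_of_eq ?_)
  rw [integral_add ((hint 1 one_pos (δ / 2) (by positivity)).const_mul 2)
      (((hint 1 one_pos δ hδ).const_mul δ).const_mul _), integral_const_mul, integral_const_mul,
    integral_const_mul, integral_Ioi_rpow_of_lt (by linarith) one_pos,
    integral_Ioi_rpow_of_lt ha one_pos, Real.one_rpow, Real.one_rpow]
  have e1 : -(δ / 2) - 1 + 1 = -(δ / 2) := by ring
  have e2 : -δ - 1 + 1 = -δ := by ring
  rw [e1, e2]
  field_simp
  ring

theorem tl : Pool.Agent.Y743.SD.S_TL := by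
  obtain ⟨C, hC0, hC⟩ := fin_bound
  have hl2 : 0 < Real.log 2 := Real.log_pos (by norm_num)
  refine ⟨128 + C / Real.log 2, by positivity, fun X δ hX hδ hXδ => ?_⟩
  have hX2 : (2 : ℝ) ≤ X := by exact_mod_cast hX
  have hL : Real.log 2 ≤ Real.log X := Real.log_le_log (by norm_num) hX2
  have hL0 : 0 < Real.log X := lt_of_lt_of_le hl2 hL
  have hnn : ∀ p : Nat.Primes, 0 ≤ (if (p : ℕ) ≤ X then 0 else (p : ℝ) ^ (-(1 + δ))) := by
    intro p
    split_ifs
    · exact le_rfl
    · exact Real.rpow_nonneg (Nat.cast_nonneg _) _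
  refine Real.tsum_le_of_sum_le hnn fun F => ?_
  calc ∑ p ∈ F, (if (p : ℕ) ≤ X then 0 else (p : ℝ) ^ (-(1 + δ)))
      ≤ ∑ p ∈ F, 1 / Real.log X * (Real.log p / p * (p : ℝ) ^ (-δ)) := by
        refine sum_le_sum fun p _ => ?_
        have hp1 : (1 : ℝ) < (p : ℝ) := by exact_mod_cast p.2.one_lt
        have hp0 : (0 : ℝ) < (p : ℝ) := by linarith
        have h3 : 0 ≤ (p : ℝ) ^ (-δ) := Real.rpow_nonneg hp0.le _
        split_ifs with h
        · have := Real.log_nonneg hp1.le
          positivity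
        · push Not at h
          have h4 : Real.log X ≤ Real.log p :=
            Real.log_le_log (by linarith) (by exact_mod_cast h.le)
          have h5 : (p : ℝ) ^ (-(1 + δ)) = 1 / p * (p : ℝ) ^ (-δ) := by
            rw [show -(1 + δ) = -1 + -δ by ring, Real.rpow_add hp0, Real.rpow_neg_one, one_div]
          rw [h5, show 1 / Real.log X * (Real.log p / p * (p : ℝ) ^ (-δ)) =
            (Real.log p / Real.log X) * (1 / p * (p : ℝ) ^ (-δ)) by ring]
          have h6 : 1 ≤ Real.log p / Real.log X := (one_le_div hL0).2 h4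
          have h7 : 0 ≤ 1 / (p : ℝ) * (p : ℝ) ^ (-δ) := by positivity
          nlinarith
    _ = 1 / Real.log X * ∑ p ∈ F, Real.log p / p * (p : ℝ) ^ (-δ) := by rw [mul_sum]
    _ ≤ 1 / Real.log X * (4 / δ + C) :=
        mul_le_mul_of_nonneg_left (hC F δ hδ) (by positivity)
    _ = 4 / (δ * Real.log X) + C / Real.log X := by field_simp
    _ ≤ 128 + C / Real.log 2 := by
        have h1 : 4 / (δ * Real.log X) ≤ 128 := by
          rw [div_le_iff₀ (by positivity)]
          linarith
        have h2 : C / Real.log X ≤ C / Real.log 2 := div_le_div_of_nonneg_left hC0.le hl2 hL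
        linarith

end Pool.Agent.Y459.TL
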